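import Pool.Agent.J6H10.GI.Stm

/-!
# GI-KZ: a Karamata theorem for families of monotone functions (helper19)
-/

set_option autoImplicit false

open MeasureTheory Set Filter Topology

namespace Pool.Agent.J6H19.GI

open Pool.Agent.J6H10.GI (Conv S_KZ)

/-- the rescaled function -/
noncomputable def gT (q : ℝ → ℝ → ℝ) (T c : ℝ) : ℝ := q T (Real.exp (c * Real.log T)) / Real.log T

/-- the transform -/
noncomputable def Fb (q : ℝ → ℝ → ℝ) (T b : ℝ) : ℝ := 4 * b ^ 2 * ∫ c in Ioi (0 : ℝ), Real.exp (-(2 * b) * c) * gT q T c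

theorem image_exp {L : ℝ} (hL : 0 < L) : (fun c : ℝ => Real.exp (c * L)) '' Ioi 0 = Ioi 1 := by
  ext z
  simp only [mem_image, mem_Ioi]
  constructor
  · rintro ⟨c, hc, rfl⟩
    exact Real.one_lt_exp_iff.2 (mul_pos hc hL)
  · intro hz
    have hz0 : 0 < z := by linarith
    refine ⟨Real.log z / L, div_pos (Real.log_pos hz) hL, ?_⟩
    rw [div_mul_cancel₀ _ hL.ne', Real.exp_log hz0]

theorem transform (q : ℝ → ℝ → ℝ) {T : ℝ} (hT : 0 < Real.log T) (δ : ℝ) :
    4 * δ ^ 2 * ∫ z in Ioi (1 : ℝ), z ^ (-(2 * δ) - 1) * q T z = Fb q T (δ * Real.log T) := by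
  set L : ℝ := Real.log T with hL
  have h1 := integral_image_eq_integral_abs_deriv_smul (s := Ioi (0 : ℝ)) (f := fun c : ℝ => Real.exp (c * L))
    (f' := fun c => Real.exp (c * L) * L) measurableSet_Ioi
    (fun c _ => by
      have h2 : HasDerivAt (fun c : ℝ => c * L) L c := by
        simpa using (hasDerivAt_id c).mul_const L
      exact (h2.exp).hasDerivWithinAt)
    (fun c _ c' _ h => by
      have h2 := Real.exp_injective h
      exact mul_right_cancel₀ hT.ne' h2)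
    (fun z => z ^ (-(2 * δ) - 1) * q T z)
  rw [image_exp hT] at h1
  rw [h1]
  unfold Fb
  have h2 : ∀ c : ℝ, |Real.exp (c * L) * L| • ((Real.exp (c * L)) ^ (-(2 * δ) - 1) * q T (Real.exp (c * L))) =
      L ^ 2 * (Real.exp (-(2 * (δ * L)) * c) * gT q T c) := by
    intro c
    unfold gT
    rw [← hL, abs_of_pos (by positivity), smul_eq_mul, ← Real.exp_mul]
    have e1 : Real.exp (-(2 * (δ * L)) * c) = Real.exp (c * L) * Real.exp (c * L * (-(2 * δ) - 1)) := by
      rw [← Real.exp_add]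
      congr 1
      ring
    rw [e1]
    field_simp
  simp_rw [h2]
  rw [integral_const_mul]
  ring

/-! ### integrals -/

theorem int_exp {s : ℝ} (hs : 0 < s) : IntegrableOn (fun c : ℝ => Real.exp (-s * c)) (Ioi 0) :=
  integrableOn_exp_mul_Ioi (by linarith) 0

theorem int_lin {s : ℝ} (hs : 0 < s) : IntegrableOn (fun c : ℝ => Real.exp (-s * c) * (1 + c)) (Ioi 0) := by
  have h1 : IntegrableOn (fun c : ℝ => (1 + 2 / s) * Real.exp (-(s / 2) * c)) (Ioi 0) :=
    (int_exp (by positivity : 0 < s / 2)).const_mul _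
  refine Integrable.mono' h1 (by fun_prop) ?_
  rw [ae_restrict_iff' measurableSet_Ioi]
  refine Eventually.of_forall fun c hc => ?_
  have hc : 0 < c := hc
  rw [Real.norm_of_nonneg (by positivity)]
  have h2 : Real.exp (-s * c) = Real.exp (-(s / 2) * c) * Real.exp (-(s / 2) * c) := by
    rw [← Real.exp_add]
    congr 1
    ring
  have h3 : Real.exp (-(s / 2) * c) * (1 + c) ≤ 1 + 2 / s := by
    have h4 := Real.add_one_le_exp (s / 2 * c)
    have h5 : Real.exp (-(s / 2) * c) * Real.exp (s / 2 * c) = 1 := by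
      rw [← Real.exp_add]
      simp
    have h6 : 0 < Real.exp (-(s / 2) * c) := Real.exp_pos _
    have h7 : Real.exp (-(s / 2) * c) ≤ 1 := Real.exp_le_one_iff.2 (by nlinarith)
    have h8 : c ≤ 2 / s * Real.exp (s / 2 * c) := by
      have : 2 / s * (s / 2 * c) = c := by field_simp
      have h9 : 2 / s * (s / 2 * c) ≤ 2 / s * Real.exp (s / 2 * c) :=
        mul_le_mul_of_nonneg_left (by linarith) (by positivity)
      linarith
    calc Real.exp (-(s / 2) * c) * (1 + c) = Real.exp (-(s / 2) * c) + Real.exp (-(s / 2) * c) * c := by ring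
      _ ≤ 1 + Real.exp (-(s / 2) * c) * (2 / s * Real.exp (s / 2 * c)) := by gcongr
      _ = 1 + 2 / s * (Real.exp (-(s / 2) * c) * Real.exp (s / 2 * c)) := by ring
      _ = 1 + 2 / s := by rw [h5, mul_one]
  calc Real.exp (-s * c) * (1 + c) = (Real.exp (-(s / 2) * c) * (1 + c)) * Real.exp (-(s / 2) * c) := by rw [h2]; ring
    _ ≤ (1 + 2 / s) * Real.exp (-(s / 2) * c) := by gcongr

theorem val_lin {s : ℝ} (hs : 0 < s) : ∫ c in Ioi (0 : ℝ), Real.exp (-s * c) * c = 1 / s ^ 2 := by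
  have h1 := Real.integral_rpow_mul_exp_neg_mul_Ioi (a := 2) (r := s) (by norm_num) hs
  have h2 : ∫ c in Ioi (0 : ℝ), Real.exp (-s * c) * c = ∫ t in Ioi (0 : ℝ), t ^ ((2 : ℝ) - 1) * Real.exp (-(s * t)) := by
    refine setIntegral_congr_fun measurableSet_Ioi fun c _ => ?_
    have e1 : (2 : ℝ) - 1 = 1 := by norm_num
    show Real.exp (-s * c) * c = c ^ ((2 : ℝ) - 1) * Real.exp (-(s * c))
    rw [e1, Real.rpow_one, neg_mul, mul_comm]
  rw [h2, h1, Real.Gamma_two, mul_one]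
  have e2 : (1 / s) ^ (2 : ℝ) = (1 / s) ^ 2 := by
    exact_mod_cast Real.rpow_natCast (1 / s) 2
  rw [e2, one_div_pow]

section
variable {q : ℝ → ℝ → ℝ} {C : ℝ}

theorem C_nonneg (hb : ∀ T z : ℝ, 2 ≤ T → 1 ≤ z → 0 ≤ q T z ∧ q T z ≤ C * (1 + Real.log z)) : 0 ≤ C := by
  have h := hb 2 1 le_rfl le_rfl
  rw [Real.log_one, add_zero, mul_one] at h
  linarith

theorem log_ge {T : ℝ} (hT : 3 ≤ T) : 1 ≤ Real.log T := by
  rw [Real.le_log_iff_exp_le (by linarith)]
  have := Real.exp_one_lt_d9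
  linarith

theorem gT_bd (hb : ∀ T z : ℝ, 2 ≤ T → 1 ≤ z → 0 ≤ q T z ∧ q T z ≤ C * (1 + Real.log z)) {T c : ℝ} (hT : 3 ≤ T)
    (hc : 0 ≤ c) : 0 ≤ gT q T c ∧ gT q T c ≤ C * (1 + c) := by
  have hL := log_ge hT
  have hC := C_nonneg hb
  have h1 := hb T (Real.exp (c * Real.log T)) (by linarith) (Real.one_le_exp (by positivity))
  rw [Real.log_exp] at h1
  unfold gT
  refine ⟨div_nonneg h1.1 (by linarith), ?_⟩
  rw [div_le_iff₀ (by linarith)]
  refine h1.2.trans ?_
  calc C * (1 + c * Real.log T) ≤ C * (Real.log T + c * Real.log T) := by gcongr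
    _ = C * (1 + c) * Real.log T := by ring

theorem gT_mono (hm : ∀ T : ℝ, 2 ≤ T → MonotoneOn (q T) (Ici 1)) {T : ℝ} (hT : 3 ≤ T) :
    MonotoneOn (gT q T) (Ici 0) := by
  have hL := log_ge hT
  intro c hc c' hc' hcc
  unfold gT
  have h1 : q T (Real.exp (c * Real.log T)) ≤ q T (Real.exp (c' * Real.log T)) := by
    apply hm T (by linarith)
    · exact Real.one_le_exp (mul_nonneg hc (by linarith))
    · exact Real.one_le_exp (mul_nonneg hc' (by linarith))
    · exact Real.exp_le_exp.2 (mul_le_mul_of_nonneg_right hcc (by linarith))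
  gcongr

theorem gT_meas (hm : ∀ T : ℝ, 2 ≤ T → MonotoneOn (q T) (Ici 1)) {T : ℝ} (hT : 3 ≤ T) :
    AEStronglyMeasurable (gT q T) (volume.restrict (Ioi 0)) :=
  (aemeasurable_restrict_of_monotoneOn measurableSet_Ioi
    ((gT_mono hm hT).mono Ioi_subset_Ici_self)).aestronglyMeasurable

/-- weighted integrals with a bounded continuous factor -/
theorem gT_int (hm : ∀ T : ℝ, 2 ≤ T → MonotoneOn (q T) (Ici 1))
    (hb : ∀ T z : ℝ, 2 ≤ T → 1 ≤ z → 0 ≤ q T z ∧ q T z ≤ C * (1 + Real.log z)) {T : ℝ} (hT : 3 ≤ T)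
    {f : ℝ → ℝ} (hf : Continuous f) {B : ℝ} (hB : ∀ y, y ∈ Icc (0:ℝ) 1 → |f y| ≤ B) {s : ℝ} (hs : 0 < s) :
    IntegrableOn (fun c => Real.exp (-s * c) * gT q T c * f (Real.exp (-c))) (Ioi 0) := by
  have h1 : IntegrableOn (fun c : ℝ => (C * B) * (Real.exp (-s * c) * (1 + c))) (Ioi 0) := (int_lin hs).const_mul _
  have hC := C_nonneg hb
  have hB0 : 0 ≤ B := (abs_nonneg _).trans (hB 0 (by simp))
  refine Integrable.mono' h1 ?_ ?_
  · refine AEStronglyMeasurable.mul (AEStronglyMeasurable.mul (by fun_prop) (gT_meas hm hT)) ?_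
    exact (hf.comp (by fun_prop)).aestronglyMeasurable
  · rw [ae_restrict_iff' measurableSet_Ioi]
    refine Eventually.of_forall fun c hc => ?_
    have hc : 0 < c := hc
    have h2 := gT_bd hb hT hc.le
    have h3 := hB (Real.exp (-c)) ⟨(Real.exp_pos _).le, Real.exp_le_one_iff.2 (by linarith)⟩
    rw [norm_mul, norm_mul, Real.norm_of_nonneg (Real.exp_pos _).le, Real.norm_of_nonneg h2.1, Real.norm_eq_abs]
    calc Real.exp (-s * c) * gT q T c * |f (Real.exp (-c))| ≤ Real.exp (-s * c) * (C * (1 + c)) * B :=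
          mul_le_mul (mul_le_mul_of_nonneg_left h2.2 (Real.exp_pos _).le) h3 (abs_nonneg _)
            (mul_nonneg (Real.exp_pos _).le (mul_nonneg hC (by linarith)))
      _ = _ := by ring

/-! ### from the limits to the transform -/

theorem forward (hm : ∀ T : ℝ, 2 ≤ T → MonotoneOn (q T) (Ici 1))
    (hb : ∀ T z : ℝ, 2 ≤ T → 1 ≤ z → 0 ≤ q T z ∧ q T z ≤ C * (1 + Real.log z)) {γ : ℝ}
    (hlim : ∀ c : ℝ, 0 < c → Tendsto (fun T : ℝ => gT q T c) atTop (𝓝 (γ * c))) {a : ℝ} (ha : 0 < a) :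
    Tendsto (fun p : ℝ × ℝ => Fb q p.1 p.2) (atTop ×ˢ 𝓝 a) (𝓝 γ) := by
  have hC := C_nonneg hb
  have hT3 : ∀ᶠ p : ℝ × ℝ in atTop ×ˢ 𝓝 a, 3 ≤ p.1 := tendsto_fst.eventually (eventually_ge_atTop 3)
  have hb2 : ∀ᶠ p : ℝ × ℝ in atTop ×ˢ 𝓝 a, a / 2 ≤ p.2 :=
    tendsto_snd.eventually ((lt_mem_nhds (by linarith : a / 2 < a)).mono fun _ h => h.le)
  have h1 : Tendsto (fun p : ℝ × ℝ => ∫ c in Ioi (0 : ℝ), Real.exp (-(2 * p.2) * c) * gT q p.1 c) (atTop ×ˢ 𝓝 a)
      (𝓝 (∫ c in Ioi (0 : ℝ), Real.exp (-(2 * a) * c) * (γ * c))) := by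
    refine tendsto_integral_filter_of_dominated_convergence (fun c => C * (Real.exp (-a * c) * (1 + c))) ?_ ?_ ?_ ?_
    · filter_upwards [hT3] with p hp
      exact AEStronglyMeasurable.mul (by fun_prop) (gT_meas hm hp)
    · filter_upwards [hT3, hb2] with p hp hp2
      rw [ae_restrict_iff' measurableSet_Ioi]
      refine Eventually.of_forall fun c hc => ?_
      have hc : 0 < c := hc
      have h2 := gT_bd hb hp hc.le
      rw [norm_mul, Real.norm_of_nonneg (Real.exp_pos _).le, Real.norm_of_nonneg h2.1]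
      have h3 : Real.exp (-(2 * p.2) * c) ≤ Real.exp (-a * c) := by
        apply Real.exp_le_exp.2
        nlinarith
      calc Real.exp (-(2 * p.2) * c) * gT q p.1 c ≤ Real.exp (-a * c) * (C * (1 + c)) :=
            mul_le_mul h3 h2.2 h2.1 (Real.exp_pos _).le
        _ = _ := by ring
    · exact (int_lin ha).const_mul _
    · rw [ae_restrict_iff' measurableSet_Ioi]
      refine Eventually.of_forall fun c hc => ?_
      have hc : 0 < c := hc
      refine Tendsto.mul ?_ ((hlim c hc).comp tendsto_fst)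
      have h2 : Continuous fun x : ℝ => Real.exp (-(2 * x) * c) := by fun_prop
      exact (h2.tendsto a).comp tendsto_snd
  have h2 : Tendsto (fun p : ℝ × ℝ => 4 * p.2 ^ 2) (atTop ×ˢ 𝓝 a) (𝓝 (4 * a ^ 2)) := by
    have h3 : Continuous fun x : ℝ => 4 * x ^ 2 := by fun_prop
    exact (h3.tendsto a).comp tendsto_snd
  have h3 := h2.mul h1
  have h4 : 4 * a ^ 2 * ∫ c in Ioi (0 : ℝ), Real.exp (-(2 * a) * c) * (γ * c) = γ := by
    have h5 : ∫ c in Ioi (0 : ℝ), Real.exp (-(2 * a) * c) * (γ * c) = γ * (1 / (2 * a) ^ 2) := by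
      rw [← val_lin (by positivity : 0 < 2 * a), ← integral_const_mul]
      congr 1
      ext c
      ring
    rw [h5]
    field_simp
    ring
  rw [h4] at h3
  exact h3

/-! ### from the transform to the limits -/

/-- the functionals -/
noncomputable def LT (q : ℝ → ℝ → ℝ) (T : ℝ) (f : ℝ → ℝ) : ℝ :=
  ∫ c in Ioi (0 : ℝ), Real.exp (-1 * c) * gT q T c * f (Real.exp (-c))

/-- the limit functional -/
noncomputable def L0 (f : ℝ → ℝ) : ℝ := ∫ c in Ioi (0 : ℝ), Real.exp (-1 * c) * c * f (Real.exp (-c))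

theorem L0_int {f : ℝ → ℝ} (hf : Continuous f) {B : ℝ} (hB : ∀ y, y ∈ Icc (0:ℝ) 1 → |f y| ≤ B) :
    IntegrableOn (fun c => Real.exp (-1 * c) * c * f (Real.exp (-c))) (Ioi 0) := by
  have h1 : IntegrableOn (fun c : ℝ => B * (Real.exp (-1 * c) * (1 + c))) (Ioi 0) :=
    (int_lin one_pos).const_mul _
  refine Integrable.mono' h1 ?_ ?_
  · exact (Continuous.mul (by fun_prop) (hf.comp (by fun_prop))).aestronglyMeasurable
  · rw [ae_restrict_iff' measurableSet_Ioi]
    refine Eventually.of_forall fun c hc => ?_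
    have hc : 0 < c := hc
    have h3 := hB (Real.exp (-c)) ⟨(Real.exp_pos _).le, Real.exp_le_one_iff.2 (by linarith)⟩
    rw [norm_mul, norm_mul, Real.norm_of_nonneg (Real.exp_pos _).le, Real.norm_of_nonneg hc.le, Real.norm_eq_abs]
    calc Real.exp (-1 * c) * c * |f (Real.exp (-c))| ≤ Real.exp (-1 * c) * (1 + c) * B :=
          mul_le_mul (mul_le_mul_of_nonneg_left (by linarith) (Real.exp_pos _).le) h3 (abs_nonneg _) (by positivity)
      _ = _ := by ring

theorem cont_bd {f : ℝ → ℝ} (hf : Continuous f) : ∃ B : ℝ, ∀ y, y ∈ Icc (0:ℝ) 1 → |f y| ≤ B := by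
  obtain ⟨B, hB⟩ := (isCompact_Icc (a := (0:ℝ)) (b := 1)).exists_bound_of_continuousOn hf.continuousOn
  exact ⟨B, fun y hy => hB y hy⟩

/-- comparison -/
theorem LT_sub (hm : ∀ T : ℝ, 2 ≤ T → MonotoneOn (q T) (Ici 1))
    (hb : ∀ T z : ℝ, 2 ≤ T → 1 ≤ z → 0 ≤ q T z ∧ q T z ≤ C * (1 + Real.log z)) {T : ℝ} (hT : 3 ≤ T)
    {f g : ℝ → ℝ} (hf : Continuous f) (hg : Continuous g) {ε : ℝ} (h : ∀ y, y ∈ Icc (0:ℝ) 1 → |f y - g y| ≤ ε) :
    |LT q T f - LT q T g| ≤ ε * (C * ∫ c in Ioi (0 : ℝ), Real.exp (-1 * c) * (1 + c)) := by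
  obtain ⟨B1, hB1⟩ := cont_bd hf
  obtain ⟨B2, hB2⟩ := cont_bd hg
  have hC := C_nonneg hb
  have hi1 := gT_int hm hb hT hf hB1 one_pos
  have hi2 := gT_int hm hb hT hg hB2 one_pos
  unfold LT
  rw [← integral_sub hi1 hi2, ← integral_const_mul, ← integral_const_mul]
  rw [← Real.norm_eq_abs]
  refine norm_integral_le_of_norm_le (((int_lin one_pos).const_mul C).const_mul ε) ?_
  rw [ae_restrict_iff' measurableSet_Ioi]
  refine Eventually.of_forall fun c hc => ?_
  have hc : 0 < c := hc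
  have h2 := gT_bd hb hT hc.le
  have h3 := h (Real.exp (-c)) ⟨(Real.exp_pos _).le, Real.exp_le_one_iff.2 (by linarith)⟩
  rw [← mul_sub, norm_mul, norm_mul, Real.norm_of_nonneg (Real.exp_pos _).le, Real.norm_of_nonneg h2.1,
    Real.norm_eq_abs]
  calc Real.exp (-1 * c) * gT q T c * |f (Real.exp (-c)) - g (Real.exp (-c))|
      ≤ Real.exp (-1 * c) * (C * (1 + c)) * ε :=
        mul_le_mul (mul_le_mul_of_nonneg_left h2.2 (Real.exp_pos _).le) h3 (abs_nonneg _) (by positivity)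
    _ = _ := by ring

theorem L0_sub {f g : ℝ → ℝ} (hf : Continuous f) (hg : Continuous g) {ε : ℝ}
    (h : ∀ y, y ∈ Icc (0:ℝ) 1 → |f y - g y| ≤ ε) :
    |L0 f - L0 g| ≤ ε * ∫ c in Ioi (0 : ℝ), Real.exp (-1 * c) * (1 + c) := by
  obtain ⟨B1, hB1⟩ := cont_bd hf
  obtain ⟨B2, hB2⟩ := cont_bd hg
  unfold L0
  rw [← integral_sub (L0_int hf hB1) (L0_int hg hB2), ← integral_const_mul, ← Real.norm_eq_abs]
  refine norm_integral_le_of_norm_le ((int_lin one_pos).const_mul ε) ?_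
  rw [ae_restrict_iff' measurableSet_Ioi]
  refine Eventually.of_forall fun c hc => ?_
  have hc : 0 < c := hc
  have h3 := h (Real.exp (-c)) ⟨(Real.exp_pos _).le, Real.exp_le_one_iff.2 (by linarith)⟩
  rw [← mul_sub, norm_mul, norm_mul, Real.norm_of_nonneg (Real.exp_pos _).le, Real.norm_of_nonneg hc.le,
    Real.norm_eq_abs]
  calc Real.exp (-1 * c) * c * |f (Real.exp (-c)) - g (Real.exp (-c))|
      ≤ Real.exp (-1 * c) * (1 + c) * ε :=
        mul_le_mul (mul_le_mul_of_nonneg_left (by linarith) (Real.exp_pos _).le) h3 (abs_nonneg _) (by positivity)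
    _ = _ := by ring

/-- polynomials -/
theorem LT_poly (hm : ∀ T : ℝ, 2 ≤ T → MonotoneOn (q T) (Ici 1))
    (hb : ∀ T z : ℝ, 2 ≤ T → 1 ≤ z → 0 ≤ q T z ∧ q T z ≤ C * (1 + Real.log z)) {γ : ℝ}
    (hlim : ∀ a : ℝ, 0 < a → Tendsto (fun T : ℝ => Fb q T a) atTop (𝓝 γ)) (P : Polynomial ℝ) :
    Tendsto (fun T => LT q T (fun y => P.eval y)) atTop (𝓝 (γ * L0 (fun y => P.eval y))) := by
  induction P using Polynomial.induction_on' with
  | add P Q hP hQ =>
    have h1 : ∀ᶠ T : ℝ in atTop, LT q T (fun y => P.eval y) + LT q T (fun y => Q.eval y) =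
        LT q T (fun y => (P + Q).eval y) := by
      filter_upwards [eventually_ge_atTop 3] with T hT
      obtain ⟨B1, hB1⟩ := cont_bd P.continuous
      obtain ⟨B2, hB2⟩ := cont_bd Q.continuous
      unfold LT
      rw [← integral_add (gT_int hm hb hT P.continuous hB1 one_pos) (gT_int hm hb hT Q.continuous hB2 one_pos)]
      congr 1
      ext c
      simp only [Polynomial.eval_add]
      ring
    have h2 : γ * L0 (fun y => (P + Q).eval y) = γ * L0 (fun y => P.eval y) + γ * L0 (fun y => Q.eval y) := by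
      obtain ⟨B1, hB1⟩ := cont_bd P.continuous
      obtain ⟨B2, hB2⟩ := cont_bd Q.continuous
      rw [← mul_add]
      congr 1
      unfold L0
      rw [← integral_add (L0_int P.continuous hB1) (L0_int Q.continuous hB2)]
      congr 1
      ext c
      simp only [Polynomial.eval_add]
      ring
    rw [h2]
    exact (hP.add hQ).congr' h1
  | monomial n r =>
    have hpos : (0 : ℝ) < ((n : ℝ) + 1) / 2 := by positivity
    have h1 : ∀ T : ℝ, LT q T (fun y => (Polynomial.monomial n r).eval y) =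
        r / ((n : ℝ) + 1) ^ 2 * Fb q T (((n : ℝ) + 1) / 2) := by
      intro T
      unfold LT Fb
      have h2 : ∀ c : ℝ, Real.exp (-1 * c) * gT q T c * (Polynomial.monomial n r).eval (Real.exp (-c)) =
          r * (Real.exp (-(2 * (((n : ℝ) + 1) / 2)) * c) * gT q T c) := by
        intro c
        rw [Polynomial.eval_monomial, ← Real.exp_nat_mul]
        have e1 : Real.exp (-(2 * (((n : ℝ) + 1) / 2)) * c) = Real.exp (-1 * c) * Real.exp ((n : ℝ) * -c) := by
          rw [← Real.exp_add]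
          congr 1
          ring
        rw [e1]
        ring
      simp_rw [h2]
      rw [integral_const_mul]
      field_simp
      ring
    have h3 : L0 (fun y => (Polynomial.monomial n r).eval y) = r / ((n : ℝ) + 1) ^ 2 := by
      unfold L0
      have h2 : ∀ c : ℝ, Real.exp (-1 * c) * c * (Polynomial.monomial n r).eval (Real.exp (-c)) =
          r * (Real.exp (-((n : ℝ) + 1) * c) * c) := by
        intro c
        rw [Polynomial.eval_monomial, ← Real.exp_nat_mul]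
        have e1 : Real.exp (-((n : ℝ) + 1) * c) = Real.exp (-1 * c) * Real.exp ((n : ℝ) * -c) := by
          rw [← Real.exp_add]
          congr 1
          ring
        rw [e1]
        ring
      simp_rw [h2]
      rw [integral_const_mul, val_lin (by positivity)]
      ring
    simp_rw [h1]
    rw [h3, mul_comm γ]
    exact (hlim _ hpos).const_mul _

/-- continuous functions -/
theorem LT_cont (hm : ∀ T : ℝ, 2 ≤ T → MonotoneOn (q T) (Ici 1))
    (hb : ∀ T z : ℝ, 2 ≤ T → 1 ≤ z → 0 ≤ q T z ∧ q T z ≤ C * (1 + Real.log z)) {γ : ℝ}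
    (hlim : ∀ a : ℝ, 0 < a → Tendsto (fun T : ℝ => Fb q T a) atTop (𝓝 γ)) {f : ℝ → ℝ} (hf : Continuous f) :
    Tendsto (fun T => LT q T f) atTop (𝓝 (γ * L0 f)) := by
  have hC := C_nonneg hb
  obtain ⟨J, hJ⟩ : ∃ J : ℝ, J = ∫ c in Ioi (0 : ℝ), Real.exp (-1 * c) * (1 + c) := ⟨_, rfl⟩
  have hJ0 : 0 ≤ J := by
    rw [hJ]
    refine setIntegral_nonneg measurableSet_Ioi fun c hc => ?_
    have hc : 0 < c := hc
    positivity
  rw [Metric.tendsto_atTop]
  intro ε hε
  obtain ⟨η, hη, hη1⟩ : ∃ η : ℝ, 0 < η ∧ η * (C * J) + |γ| * (η * J) < ε / 2 := by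
    refine ⟨ε / (4 * (C * J + |γ| * J + 1)), by positivity, ?_⟩
    have h0 : 0 < C * J + |γ| * J + 1 := by positivity
    have e1 : ε / (4 * (C * J + |γ| * J + 1)) * (C * J) + |γ| * (ε / (4 * (C * J + |γ| * J + 1)) * J) =
        ε / 4 * ((C * J + |γ| * J) / (C * J + |γ| * J + 1)) := by
      field_simp
    rw [e1]
    have h1 : (C * J + |γ| * J) / (C * J + |γ| * J + 1) ≤ 1 := by
      rw [div_le_one h0]
      linarith
    nlinarith
  obtain ⟨P, hP⟩ := exists_polynomial_near_of_continuousOn 0 1 f hf.continuousOn η hη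
  have hP' : ∀ y, y ∈ Icc (0:ℝ) 1 → |f y - P.eval y| ≤ η := fun y hy => by
    rw [abs_sub_comm]
    exact (hP y hy).le
  have h1 := LT_poly hm hb hlim P
  rw [Metric.tendsto_atTop] at h1
  obtain ⟨T₁, hT₁⟩ := h1 (ε / 2) (half_pos hε)
  refine ⟨max T₁ 3, fun T hT => ?_⟩
  have hT3 : 3 ≤ T := (le_max_right _ _).trans hT
  have h2 := hT₁ T ((le_max_left _ _).trans hT)
  have h3 := LT_sub hm hb hT3 hf P.continuous hP'
  have h4 := L0_sub hf P.continuous hP'
  rw [← hJ] at h3 h4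
  rw [Real.dist_eq] at h2 ⊢
  have h5 : |γ * L0 (fun y => P.eval y) - γ * L0 f| ≤ |γ| * (η * J) := by
    rw [← mul_sub, abs_mul, abs_sub_comm]
    exact mul_le_mul_of_nonneg_left h4 (abs_nonneg _)
  calc |LT q T f - γ * L0 f| ≤ |LT q T f - LT q T (fun y => P.eval y)| +
        |LT q T (fun y => P.eval y) - γ * L0 (fun y => P.eval y)| + |γ * L0 (fun y => P.eval y) - γ * L0 f| := by
        have e : LT q T f - γ * L0 f = (LT q T f - LT q T (fun y => P.eval y)) +
          (LT q T (fun y => P.eval y) - γ * L0 (fun y => P.eval y)) + (γ * L0 (fun y => P.eval y) - γ * L0 f) := by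
          ring
        rw [e]
        exact abs_add_three _ _ _
    _ < ε := by linarith

/-! ### the tent -/

/-- a tent supported in `[e^(-c₀-h), e^(-c₀)]` -/
noncomputable def tent (c₀ h y : ℝ) : ℝ := max 0 ((y - Real.exp (-(c₀ + h))) * (Real.exp (-c₀) - y))

theorem tent_cont (c₀ h : ℝ) : Continuous (tent c₀ h) := by
  unfold tent
  fun_prop

theorem tent_nonneg (c₀ h y : ℝ) : 0 ≤ tent c₀ h y := le_max_left _ _

theorem tent_zero {c₀ h c : ℝ} (hh : 0 < h) (hc : ¬ (c₀ < c ∧ c < c₀ + h)) : tent c₀ h (Real.exp (-c)) = 0 := by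
  unfold tent
  rw [max_eq_left]
  by_cases h1 : c₀ < c
  · have h2 : c₀ + h ≤ c := by
      by_contra h3
      exact hc ⟨h1, by linarith⟩
    have h3 : Real.exp (-c) ≤ Real.exp (-(c₀ + h)) := Real.exp_le_exp.2 (by linarith)
    have h4 : Real.exp (-c) ≤ Real.exp (-c₀) := Real.exp_le_exp.2 (by linarith)
    exact mul_nonpos_of_nonpos_of_nonneg (by linarith) (by linarith)
  · have h3 : Real.exp (-(c₀ + h)) ≤ Real.exp (-c) := Real.exp_le_exp.2 (by linarith)
    have h4 : Real.exp (-c₀) ≤ Real.exp (-c) := Real.exp_le_exp.2 (by linarith)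
    exact mul_nonpos_of_nonneg_of_nonpos (by linarith) (by linarith)

theorem tent_pos {c₀ h c : ℝ} (h1 : c₀ < c) (h2 : c < c₀ + h) : 0 < tent c₀ h (Real.exp (-c)) := by
  unfold tent
  have h3 : Real.exp (-(c₀ + h)) < Real.exp (-c) := Real.exp_lt_exp.2 (by linarith)
  have h4 : Real.exp (-c) < Real.exp (-c₀) := Real.exp_lt_exp.2 (by linarith)
  exact lt_max_of_lt_right (mul_pos (by linarith) (by linarith))

/-- the mass of the tent -/
noncomputable def I0 (c₀ h : ℝ) : ℝ := ∫ c in Ioi (0 : ℝ), Real.exp (-1 * c) * tent c₀ h (Real.exp (-c))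

theorem I0_int (c₀ h : ℝ) : IntegrableOn (fun c => Real.exp (-1 * c) * tent c₀ h (Real.exp (-c))) (Ioi 0) := by
  obtain ⟨B, hB⟩ := cont_bd (tent_cont c₀ h)
  have h1 : IntegrableOn (fun c : ℝ => B * Real.exp (-1 * c)) (Ioi 0) := (int_exp one_pos).const_mul _
  refine Integrable.mono' h1 ?_ ?_
  · exact (Continuous.mul (by fun_prop) ((tent_cont c₀ h).comp (by fun_prop))).aestronglyMeasurable
  · rw [ae_restrict_iff' measurableSet_Ioi]
    refine Eventually.of_forall fun c hc => ?_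
    have hc : 0 < c := hc
    have h3 := hB (Real.exp (-c)) ⟨(Real.exp_pos _).le, Real.exp_le_one_iff.2 (by linarith)⟩
    rw [norm_mul, Real.norm_of_nonneg (Real.exp_pos _).le, Real.norm_eq_abs, mul_comm]
    exact mul_le_mul_of_nonneg_right h3 (Real.exp_pos _).le

theorem I0_pos {c₀ h : ℝ} (hc₀ : 0 ≤ c₀) (hh : 0 < h) : 0 < I0 c₀ h := by
  unfold I0
  rw [setIntegral_pos_iff_support_of_nonneg_ae _ (I0_int c₀ h)]
  · have h1 : Ioo c₀ (c₀ + h) ⊆ (Function.support fun c => Real.exp (-1 * c) * tent c₀ h (Real.exp (-c))) ∩ Ioi 0 := by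
      intro c hc
      exact ⟨(mul_pos (Real.exp_pos _) (tent_pos hc.1 hc.2)).ne', lt_of_le_of_lt hc₀ hc.1⟩
    refine lt_of_lt_of_le ?_ (measure_mono h1)
    rw [Real.volume_Ioo]
    simp [hh]
  · exact Eventually.of_forall fun c => mul_nonneg (Real.exp_pos _).le (tent_nonneg _ _ _)

/-- the sandwich -/
theorem sandwich {G : ℝ → ℝ} (hG : MonotoneOn G (Ici 0)) {c₀ h : ℝ} (hc₀ : 0 ≤ c₀) (hh : 0 < h)
    (hi : IntegrableOn (fun c => Real.exp (-1 * c) * G c * tent c₀ h (Real.exp (-c))) (Ioi 0)) :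
    G c₀ * I0 c₀ h ≤ ∫ c in Ioi (0 : ℝ), Real.exp (-1 * c) * G c * tent c₀ h (Real.exp (-c)) ∧
    ∫ c in Ioi (0 : ℝ), Real.exp (-1 * c) * G c * tent c₀ h (Real.exp (-c)) ≤ G (c₀ + h) * I0 c₀ h := by
  unfold I0
  rw [← integral_const_mul, ← integral_const_mul]
  have key : ∀ c ∈ Ioi (0 : ℝ), G c₀ * (Real.exp (-1 * c) * tent c₀ h (Real.exp (-c))) ≤
      Real.exp (-1 * c) * G c * tent c₀ h (Real.exp (-c)) ∧ Real.exp (-1 * c) * G c * tent c₀ h (Real.exp (-c)) ≤
      G (c₀ + h) * (Real.exp (-1 * c) * tent c₀ h (Real.exp (-c))) := by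
    intro c hc
    have hc : 0 < c := hc
    by_cases hcc : c₀ < c ∧ c < c₀ + h
    · have h1 : G c₀ ≤ G c := hG hc₀ hc.le hcc.1.le
      have h2 : G c ≤ G (c₀ + h) := hG hc.le (by show (0:ℝ) ≤ c₀ + h; linarith) hcc.2.le
      have h3 : 0 ≤ Real.exp (-1 * c) * tent c₀ h (Real.exp (-c)) :=
        mul_nonneg (Real.exp_pos _).le (tent_nonneg _ _ _)
      have e : Real.exp (-1 * c) * G c * tent c₀ h (Real.exp (-c)) =
        G c * (Real.exp (-1 * c) * tent c₀ h (Real.exp (-c))) := by ring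
      rw [e]
      exact ⟨mul_le_mul_of_nonneg_right h1 h3, mul_le_mul_of_nonneg_right h2 h3⟩
    · rw [tent_zero hh hcc]
      simp
  exact ⟨setIntegral_mono_on ((I0_int c₀ h).const_mul _) hi measurableSet_Ioi fun c hc => (key c hc).1,
    setIntegral_mono_on hi ((I0_int c₀ h).const_mul _) measurableSet_Ioi fun c hc => (key c hc).2⟩

theorem backward (hm : ∀ T : ℝ, 2 ≤ T → MonotoneOn (q T) (Ici 1))
    (hb : ∀ T z : ℝ, 2 ≤ T → 1 ≤ z → 0 ≤ q T z ∧ q T z ≤ C * (1 + Real.log z)) {γ : ℝ}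
    (hlim : ∀ a : ℝ, 0 < a → Tendsto (fun T : ℝ => Fb q T a) atTop (𝓝 γ)) {c₁ : ℝ} (hc₁ : 0 < c₁) :
    Tendsto (fun T => gT q T c₁) atTop (𝓝 (γ * c₁)) := by
  have hγ : 0 ≤ γ := by
    refine ge_of_tendsto (hlim 1 one_pos) ?_
    filter_upwards [eventually_ge_atTop 3] with T hT
    unfold Fb
    refine mul_nonneg (by norm_num) (setIntegral_nonneg measurableSet_Ioi fun c hc => ?_)
    have hc : 0 < c := hc
    exact mul_nonneg (Real.exp_pos _).le (gT_bd hb hT hc.le).1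
  have hlow : ∀ c₀ h : ℝ, 0 ≤ c₀ → 0 < h → ∀ T : ℝ, 3 ≤ T →
      gT q T c₀ * I0 c₀ h ≤ LT q T (tent c₀ h) ∧ LT q T (tent c₀ h) ≤ gT q T (c₀ + h) * I0 c₀ h := by
    intro c₀ h hc₀ hh T hT
    obtain ⟨B, hB⟩ := cont_bd (tent_cont c₀ h)
    exact sandwich (gT_mono hm hT) hc₀ hh (gT_int hm hb hT (tent_cont c₀ h) hB one_pos)
  have hL0 : ∀ c₀ h : ℝ, 0 ≤ c₀ → 0 < h → c₀ * I0 c₀ h ≤ L0 (tent c₀ h) ∧ L0 (tent c₀ h) ≤ (c₀ + h) * I0 c₀ h := by
    intro c₀ h hc₀ hh
    obtain ⟨B, hB⟩ := cont_bd (tent_cont c₀ h)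
    exact sandwich (G := fun c => c) (fun _ _ _ _ h => h) hc₀ hh (L0_int (tent_cont c₀ h) hB)
  rw [tendsto_order]
  constructor
  · intro a' ha'
    obtain ⟨ε, hε⟩ : ∃ ε, ε = γ * c₁ - a' := ⟨_, rfl⟩
    have hε0 : 0 < ε := by linarith
    obtain ⟨h, hh0, hh1, hh2⟩ : ∃ h : ℝ, 0 < h ∧ h < c₁ ∧ γ * h < ε := by
      refine ⟨min (c₁ / 2) (ε / (2 * (γ + 1))), by positivity, lt_of_le_of_lt (min_le_left _ _) (by linarith), ?_⟩
      have h1 : γ * min (c₁ / 2) (ε / (2 * (γ + 1))) ≤ γ * (ε / (2 * (γ + 1))) :=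
        mul_le_mul_of_nonneg_left (min_le_right _ _) hγ
      have h2 : γ * (ε / (2 * (γ + 1))) = ε / 2 * (γ / (γ + 1)) := by field_simp
      have h3 : γ / (γ + 1) ≤ 1 := by
        rw [div_le_one (by linarith)]
        linarith
      nlinarith
    have hI := I0_pos (c₀ := c₁ - h) (by linarith) hh0
    have h1 := LT_cont hm hb hlim (tent_cont (c₁ - h) h)
    have h2 := (hL0 (c₁ - h) h (by linarith) hh0).1
    have h3 : a' * I0 (c₁ - h) h < γ * L0 (tent (c₁ - h) h) := by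
      have h4 : γ * ((c₁ - h) * I0 (c₁ - h) h) ≤ γ * L0 (tent (c₁ - h) h) := mul_le_mul_of_nonneg_left h2 hγ
      have h5 : a' < γ * (c₁ - h) := by
        rw [mul_sub]
        linarith
      have h6 := mul_lt_mul_of_pos_right h5 hI
      linarith
    filter_upwards [h1.eventually (lt_mem_nhds h3), eventually_ge_atTop 3] with T hT hT3
    have h4 := (hlow (c₁ - h) h (by linarith) hh0 T hT3).2
    rw [sub_add_cancel] at h4
    exact lt_of_mul_lt_mul_right (lt_of_lt_of_le hT h4) hI.le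
  · intro a' ha'
    obtain ⟨ε, hε⟩ : ∃ ε, ε = a' - γ * c₁ := ⟨_, rfl⟩
    have hε0 : 0 < ε := by linarith
    obtain ⟨h, hh0, hh2⟩ : ∃ h : ℝ, 0 < h ∧ γ * h < ε := by
      refine ⟨ε / (2 * (γ + 1)), by positivity, ?_⟩
      have h2 : γ * (ε / (2 * (γ + 1))) = ε / 2 * (γ / (γ + 1)) := by field_simp
      have h3 : γ / (γ + 1) ≤ 1 := by
        rw [div_le_one (by linarith)]
        linarith
      nlinarith
    have hI := I0_pos (c₀ := c₁) hc₁.le hh0
    have h1 := LT_cont hm hb hlim (tent_cont c₁ h)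
    have h2 := (hL0 c₁ h hc₁.le hh0).2
    have h3 : γ * L0 (tent c₁ h) < a' * I0 c₁ h := by
      have h4 : γ * L0 (tent c₁ h) ≤ γ * ((c₁ + h) * I0 c₁ h) := mul_le_mul_of_nonneg_left h2 hγ
      have h5 : γ * (c₁ + h) < a' := by
        rw [mul_add]
        linarith
      have h6 := mul_lt_mul_of_pos_right h5 hI
      linarith
    filter_upwards [h1.eventually (gt_mem_nhds h3), eventually_ge_atTop 3] with T hT hT3
    have h4 := (hlow c₁ h hc₁.le hh0 T hT3).1
    exact lt_of_mul_lt_mul_right (lt_of_le_of_lt h4 hT) hI.le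

end

/-- GI-KZ -/
theorem kz : S_KZ := by
  intro q C γ hm hb
  have hbr : ∀ c : ℝ, (fun T : ℝ => q T (T ^ c) / Real.log T) =ᶠ[atTop] fun T => gT q T c := by
    intro c
    filter_upwards [eventually_gt_atTop 0] with T hT
    unfold gT
    rw [Real.rpow_def_of_pos hT, mul_comm]
  constructor
  · intro hlim a ha ε hε
    have h1 := forward hm hb (fun c hc => (hlim c hc).congr' (hbr c)) ha
    have h2 := h1.eventually (Metric.ball_mem_nhds γ hε)
    obtain ⟨pa, hpa, pb, hpb, h3⟩ := eventually_prod_iff.1 h2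
    obtain ⟨T₀, hT₀⟩ := eventually_atTop.1 hpa
    obtain ⟨η, hη, hη'⟩ := Metric.eventually_nhds_iff.1 hpb
    refine ⟨η, max T₀ 3, hη, ?_⟩
    intro δ T hT hδ
    have hT3 : 3 ≤ T := (le_max_right _ _).trans hT
    have hL := log_ge hT3
    have h4 := h3 (hT₀ T ((le_max_left _ _).trans hT)) (hη' (y := δ * Real.log T) (by rw [Real.dist_eq]; exact hδ))
    beta_reduce
    rw [transform q (T := T) (by linarith) δ]
    have h5 : dist (Fb q T (δ * Real.log T)) γ < ε := h4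
    rw [Real.dist_eq] at h5
    exact h5.le
  · intro hconv c hc
    have hlim : ∀ a : ℝ, 0 < a → Tendsto (fun T : ℝ => Fb q T a) atTop (𝓝 γ) := by
      intro a ha
      rw [Metric.tendsto_atTop]
      intro ε hε
      obtain ⟨η, T₀, hη, h1⟩ := hconv a ha (ε / 2) (half_pos hε)
      refine ⟨max T₀ 3, fun T hT => ?_⟩
      have hT3 : 3 ≤ T := (le_max_right _ _).trans hT
      have hL := log_ge hT3
      have e : a / Real.log T * Real.log T = a := div_mul_cancel₀ _ (by linarith)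
      have h2 := h1 (a / Real.log T) T ((le_max_left _ _).trans hT) (by rw [e, sub_self, abs_zero]; exact hη)
      beta_reduce at h2
      rw [transform q (T := T) (by linarith) (a / Real.log T), e] at h2
      rw [Real.dist_eq]
      linarith
    exact (backward hm hb hlim hc).congr' (hbr c).symm

end Pool.Agent.J6H19.GI
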